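import Mathlib
import Pool.Agent.H82.NP.Targets

/-!
# NP project: KKT (assembly of the structure of maximisers)
-/

set_option autoImplicit false

open Metric Set Filter Topology Polynomial

namespace Pool.Agent.H36.NP

open Pool.Agent.H82.NP

lemma L_sub_smul (n : ℕ) (s : ℝ) (lam c τ : ℕ → ℂ) :
    L n (fun k => s * lam k - c k) τ = s * L n lam τ - L n c τ := by
  unfold L
  rw [← Complex.re_ofReal_mul, ← Complex.sub_re, Finset.mul_sum, ← Finset.sum_sub_distrib]
  congr 1
  apply Finset.sum_congr rfl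
  intro k _
  ring

/-- the coordinate sequence -/
noncomputable def dl (k : ℕ) (w : ℂ) : ℕ → ℂ := fun j => if j = k then w else 0

lemma L_dl (n k : ℕ) (hk : k ≤ n) (w : ℂ) (x : ℕ → ℂ) : L n x (dl k w) = (x k * w).re := by
  unfold L dl
  congr 1
  rw [Finset.sum_eq_single k]
  · rw [if_pos rfl]
  · intro j _ hj
    rw [if_neg hj, mul_zero]
  · intro h
    exact absurd (Finset.mem_range.mpr (by omega)) h

lemma TP_dl_zero (n : ℕ) (z : ℂ) : TP n (dl 0 1) z = 1 := by
  unfold TP dl
  rw [if_pos rfl, Finset.sum_eq_zero]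
  · simp
  · intro k hk
    rw [Finset.mem_Icc] at hk
    rw [if_neg (by omega)]
    simp

lemma TP_dl (n k : ℕ) (h1 : 1 ≤ k) (hk : k ≤ n) (w z : ℂ) :
    TP n (dl k w) z = 2 * ((starRingEnd ℂ) w * z ^ k).re := by
  unfold TP dl
  rw [if_neg (by omega), Finset.sum_eq_single k]
  · rw [if_pos rfl]; simp
  · intro j _ hj
    rw [if_neg hj]; simp
  · intro h
    exact absurd (Finset.mem_Icc.mpr ⟨h1, hk⟩) h

theorem t_KKT (hK1 : T_K1) (hK2 : T_K2) (hK3 : T_K3) (hFR : T_FR) (hLOG : T_LOG)
    (hATOM : T_ATOM) (hAC : T_AC) (hUNIQ : T_UNIQ) : T_KKT := by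
  intro n s c hn hs _ hM
  have hA := hK1 n s c hn hs hM
  obtain ⟨G, hdeg, hzf, hsq⟩ := hFR n _ hA
  obtain ⟨lam, hlam⟩ := hLOG G hzf
  have hx1 : ∀ τ : ℕ → ℂ, (τ 0).im = 0 → L n (fun k => s * lam k - c k) τ =
      s * av (fun z => TP n τ z * Real.log (TP n (ker n c) z)) - L n c τ := by
    intro τ hτ
    rw [L_sub_smul, ← hlam.mom n τ hτ]
    congr 2
    unfold av
    apply Real.circleAverage_congr_sphere
    intro z hz
    have hz1 : ‖z‖ = 1 := by simpa using hz
    simp only
    rw [hsq z hz1]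
  obtain ⟨m, r, ζ, hr, hζ, hrep⟩ := hATOM n (fun k => s * lam k - c k) (by
    intro τ hτ
    rw [hx1 τ (by rw [hτ.1]; simp)]
    have := hK3 n s c hn hs hM τ hτ
    linarith)
  -- the atoms are zeros of `G`
  have hzero : ∀ i, r i * TP n (ker n c) (ζ i) = 0 := by
    have h1 := hrep (ker n c) (by rw [hA.1]; simp)
    rw [hx1 _ (by rw [hA.1]; simp), hK2 n s c hn hs hM] at h1
    have h2 : av (fun z => TP n (ker n c) z * Real.log (TP n (ker n c) z)) =
        ent (TP n (ker n c)) := rfl
    rw [h2, sub_self] at h1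
    have h3 : ∀ i ∈ Finset.univ, 0 ≤ r i * TP n (ker n c) (ζ i) := fun i _ =>
      mul_nonneg (hr i).le (hA.2 _ (hζ i))
    have h4 := (Finset.sum_eq_zero_iff_of_nonneg h3).mp h1.symm
    exact fun i => h4 i (Finset.mem_univ i)
  have hroot : ∀ i, G.eval (ζ i) = 0 := by
    intro i
    have h1 := hzero i
    rw [← hsq _ (hζ i)] at h1
    have h2 := (mul_eq_zero.mp h1).resolve_left (hr i).ne'
    unfold Pool.Agent.H82.NP.sq at h2
    exact norm_eq_zero.mp (pow_eq_zero_iff (by norm_num) |>.mp h2)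
  refine ⟨G, lam, m, r, ζ, hdeg, hzf, ?_, hlam, hr, hζ, hroot, ?_, ?_⟩
  · -- `ker_eq`
    have h1 := hUNIQ n (ac n G) (ker n c) (fun z hz => by rw [← hAC n G hdeg z hz, hsq z hz])
    intro k hk
    rcases Nat.eq_zero_or_pos k with h0 | h0
    · subst h0
      rw [hA.1]
      apply Complex.ext
      · rw [h1.1, hA.1]
      · unfold ac
        rw [Complex.im_sum]
        simp only [add_zero, Complex.one_im]
        apply Finset.sum_eq_zero
        intro j _
        rw [Complex.mul_conj, Complex.ofReal_im]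
    · exact h1.2 k h0 hk
  · have h1 := hrep (dl 0 1) (by simp [dl])
    rw [L_dl n 0 (Nat.zero_le _)] at h1
    simp only [TP_dl_zero, mul_one] at h1
    rw [Complex.sub_re, Complex.re_ofReal_mul] at h1
    linarith
  · intro k h1 hk
    have h2 : ∀ w : ℂ, ((s * lam k - c k) * w).re =
        ((2 * ∑ i, (r i : ℂ) * (starRingEnd ℂ) (ζ i) ^ k) * w).re := by
      intro w
      have h3 := hrep (dl k w) (by unfold dl; rw [if_neg (by omega)]; simp)
      rw [L_dl n k hk] at h3
      rw [h3, Finset.mul_sum, Finset.sum_mul, Complex.re_sum]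
      apply Finset.sum_congr rfl
      intro i _
      rw [TP_dl n k h1 hk]
      have e1 : 2 * ((r i : ℂ) * (starRingEnd ℂ) (ζ i) ^ k) * w =
          ((2 * r i : ℝ) : ℂ) * ((starRingEnd ℂ) ((starRingEnd ℂ) w * ζ i ^ k)) := by
        rw [map_mul, Complex.conj_conj, map_pow]
        push_cast
        ring
      rw [e1, Complex.re_ofReal_mul, Complex.conj_re]
      ring
    have h4 : s * lam k - c k = 2 * ∑ i, (r i : ℂ) * (starRingEnd ℂ) (ζ i) ^ k := by
      apply Complex.ext
      · have := h2 1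
        simpa using this
      · have := h2 (-Complex.I)
        rw [mul_neg, mul_neg, Complex.neg_re, Complex.neg_re, Complex.mul_I_re,
          Complex.mul_I_re, neg_neg, neg_neg] at this
        exact this
    rw [← h4]
    ring

end Pool.Agent.H36.NP
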