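import Mathlib
import Pool.Agent.H82.NP.Targets

/-!
# NP project: LOG (logarithm data of a zero-free polynomial)
-/

set_option autoImplicit false

open Metric Set Filter Topology Polynomial MeasureTheory

namespace Pool.Agent.H36.NP

open Pool.Agent.H82.NP Pool.Agent.H82.Hp

/-- comparison of the values on two circles -/
lemma norm_sub_le {ρ : ℝ} (h0 : 0 < ρ) (h1 : ρ < 1) {z α : ℂ} (hz : ‖z‖ = 1) (hα : 1 ≤ ‖α‖) :
    ‖z - α‖ ≤ 2 * ‖(ρ : ℂ) * z - α‖ := by
  have e1 : z - α = (1 - (ρ : ℂ)) * z + ((ρ : ℂ) * z - α) := by ring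
  have e2 : ‖(1 - (ρ : ℂ)) * z‖ = 1 - ρ := by
    have : (1 - (ρ : ℂ)) = ((1 - ρ : ℝ) : ℂ) := by push_cast; ring
    rw [norm_mul, hz, mul_one, this, Complex.norm_real, Real.norm_eq_abs, abs_of_pos (by linarith)]
  have e3 : ‖(ρ : ℂ) * z‖ = ρ := by
    rw [norm_mul, hz, mul_one, Complex.norm_real, Real.norm_eq_abs, abs_of_pos h0]
  have e4 : 1 - ρ ≤ ‖(ρ : ℂ) * z - α‖ := by
    have := norm_sub_norm_le α ((ρ : ℂ) * z)
    rw [norm_sub_rev] at this
    linarith
  calc ‖z - α‖ = ‖(1 - (ρ : ℂ)) * z + ((ρ : ℂ) * z - α)‖ := by rw [← e1]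
    _ ≤ ‖(1 - (ρ : ℂ)) * z‖ + ‖(ρ : ℂ) * z - α‖ := norm_add_le _ _
    _ ≤ 2 * ‖(ρ : ℂ) * z - α‖ := by linarith

lemma multiset_prod_le {ρ : ℝ} (h0 : 0 < ρ) (h1 : ρ < 1) {z : ℂ} (hz : ‖z‖ = 1)
    (s : Multiset ℂ) (hs : ∀ α ∈ s, 1 ≤ ‖α‖) :
    ‖(s.map (fun α => z - α)).prod‖ ≤
      2 ^ (Multiset.card s) * ‖(s.map (fun α => (ρ : ℂ) * z - α)).prod‖ := by
  induction s using Multiset.induction_on with
  | empty => simp
  | cons a s ih =>
    simp only [Multiset.map_cons, Multiset.prod_cons, Multiset.card_cons, norm_mul]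
    have ih' := ih (fun α hα => hs α (Multiset.mem_cons_of_mem hα))
    have ha := norm_sub_le h0 h1 hz (hs a (Multiset.mem_cons_self a s))
    calc ‖z - a‖ * ‖(s.map (fun α => z - α)).prod‖
        ≤ (2 * ‖(ρ : ℂ) * z - a‖) *
          (2 ^ (Multiset.card s) * ‖(s.map (fun α => (ρ : ℂ) * z - α)).prod‖) :=
          mul_le_mul ha ih' (norm_nonneg _) (by positivity)
      _ = _ := by ring

lemma norm_eval_le {ρ : ℝ} (h0 : 0 < ρ) (h1 : ρ < 1) {z : ℂ} (hz : ‖z‖ = 1) (G : ℂ[X])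
    (hG : ∀ z : ℂ, ‖z‖ < 1 → G.eval z ≠ 0) :
    ‖G.eval z‖ ≤ 2 ^ (Multiset.card G.roots) * ‖G.eval ((ρ : ℂ) * z)‖ := by
  have hs := IsAlgClosed.splits G
  rw [hs.eval_eq_prod_roots z, hs.eval_eq_prod_roots ((ρ : ℂ) * z), norm_mul, norm_mul]
  have h2 := multiset_prod_le h0 h1 hz G.roots (by
    intro α hα
    by_contra h
    push Not at h
    exact hG α h (Polynomial.isRoot_of_mem_roots hα))
  calc ‖G.leadingCoeff‖ * ‖(G.roots.map (fun α => z - α)).prod‖
      ≤ ‖G.leadingCoeff‖ * (2 ^ (Multiset.card G.roots) *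
        ‖(G.roots.map (fun α => (ρ : ℂ) * z - α)).prod‖) :=
        mul_le_mul_of_nonneg_left h2 (norm_nonneg _)
    _ = _ := by ring

/-- a bound for the values in the disc -/
lemma norm_eval_bound (G : ℂ[X]) {z : ℂ} (hz : ‖z‖ ≤ 1) :
    ‖G.eval z‖ ≤ ∑ j ∈ Finset.range (G.natDegree + 1), ‖G.coeff j‖ := by
  rw [eval_eq_sum_range]
  refine (norm_sum_le _ _).trans (Finset.sum_le_sum fun j _ => ?_)
  rw [norm_mul, norm_pow]
  exact mul_le_of_le_one_right (norm_nonneg _) (pow_le_one₀ (norm_nonneg _) hz)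

lemma TP_continuous (n : ℕ) (τ : ℕ → ℂ) : Continuous (TP n τ) := by
  unfold TP
  fun_prop

lemma sum_Icc_shift (n : ℕ) (f : ℕ → ℝ) :
    ∑ k ∈ Finset.Icc 1 n, f k = ∑ k ∈ Finset.range n, f (k + 1) := by
  induction n with
  | zero => simp
  | succ n ih => rw [Finset.sum_Icc_succ_top (by omega), ih, Finset.sum_range_succ]

/-- the average at radius `ρ` -/
lemma avg_rho {h : ℂ → ℂ} (hh : DifferentiableOn ℂ h (ball 0 1)) {ρ : ℝ} (h0 : 0 < ρ)
    (h1 : ρ < 1) (n : ℕ) (τ : ℕ → ℂ) (hτ : (τ 0).im = 0) :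
    Real.circleAverage (fun z => TP n τ (z / ρ) * (2 * (h z).re)) 0 ρ =
      ∑ k ∈ Finset.range (n + 1), ρ ^ k * (2 * co h k * τ k).re := by
  have cre := contOn_re hh h0 h1
  have e1 : (fun z => TP n τ (z / ρ) * (2 * (h z).re)) = fun z =>
      (2 * (τ 0).re) • (h z).re + ∑ k ∈ Finset.Icc 1 n,
        (4 : ℝ) • (((starRingEnd ℂ) (τ k) * (z / ρ) ^ k).re * (h z).re) := by
    funext z
    simp only [TP, smul_eq_mul]
    rw [add_mul, mul_assoc 2, Finset.sum_mul, Finset.mul_sum]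
    congr 1
    · ring
    · apply Finset.sum_congr rfl
      intro k _
      ring
  have c1 : ∀ k : ℕ, ContinuousOn (fun z : ℂ => ((starRingEnd ℂ) (τ k) * (z / ρ) ^ k).re
      * (h z).re) (sphere 0 |ρ|) := by
    intro k
    apply ContinuousOn.mul _ cre
    fun_prop
  have i1 : CircleIntegrable (fun z => (2 * (τ 0).re) • (h z).re) 0 ρ :=
    (cre.const_smul (2 * (τ 0).re)).circleIntegrable'
  have i2 : ∀ k ∈ Finset.Icc 1 n, CircleIntegrable (fun z => (4 : ℝ) •
      (((starRingEnd ℂ) (τ k) * (z / ρ) ^ k).re * (h z).re)) 0 ρ := fun k _ =>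
    ((c1 k).const_smul (4 : ℝ)).circleIntegrable'
  have i3 : CircleIntegrable (fun z => ∑ k ∈ Finset.Icc 1 n, (4 : ℝ) •
      (((starRingEnd ℂ) (τ k) * (z / ρ) ^ k).re * (h z).re)) 0 ρ := by
    apply ContinuousOn.circleIntegrable'
    apply continuousOn_finsetSum
    intro k _
    exact (c1 k).const_smul (4 : ℝ)
  rw [e1, Real.circleAverage_fun_add i1 i3, Real.circleAverage_fun_smul,
    Real.circleAverage_fun_sum i2, avg_re hh h0 h1]
  have e2 : ∀ k ∈ Finset.Icc 1 n, Real.circleAverage (fun z => (4 : ℝ) •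
      (((starRingEnd ℂ) (τ k) * (z / ρ) ^ k).re * (h z).re)) 0 ρ =
      ρ ^ k * (2 * co h k * τ k).re := by
    intro k hk
    rw [Finset.mem_Icc] at hk
    rw [Real.circleAverage_fun_smul, avg_re_re hh h0 h1 hk.1, Complex.conj_conj, smul_eq_mul]
    have : (2 * co h k * τ k).re = 2 * (τ k * co h k).re := by
      have : (2 * co h k * τ k) = ((2 : ℝ) : ℂ) * (τ k * co h k) := by push_cast; ring
      rw [this, Complex.re_ofReal_mul]
    rw [this]
    ring
  rw [Finset.sum_congr rfl e2, Finset.sum_range_succ', smul_eq_mul]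
  have e3 : ρ ^ 0 * (2 * co h 0 * τ 0).re = 2 * (τ 0).re * (h 0).re := by
    rw [co_zero]
    have : τ 0 = (((τ 0).re : ℝ) : ℂ) := by
      apply Complex.ext
      · simp
      · simp [hτ]
    rw [this, pow_zero, one_mul, Complex.re_mul_ofReal]
    simp
    ring
  rw [e3, add_comm]
  congr 1
  exact sum_Icc_shift n _

/-- the average of the logarithm at radius `ρ`, transferred to the unit circle -/
lemma avg_rho' {G : ℂ[X]} {h : ℂ → ℂ} (hh : DifferentiableOn ℂ h (ball 0 1))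
    (hG : ∀ z ∈ ball (0 : ℂ) 1, G.eval z = Complex.exp (h z)) {ρ : ℝ} (h0 : 0 < ρ)
    (h1 : ρ < 1) (n : ℕ) (τ : ℕ → ℂ) (hτ : (τ 0).im = 0) :
    Real.circleAverage (fun z => TP n τ z * Real.log (Pool.Agent.H82.NP.sq G ((ρ : ℂ) * z))) 0 1 =
      ∑ k ∈ Finset.range (n + 1), ρ ^ k * (2 * co h k * τ k).re := by
  rw [← avg_rho hh h0 h1 n τ hτ,
    Real.circleAverage_eq_circleAverage_zero_one (f := fun z => TP n τ (z / ρ) * (2 * (h z).re))]
  apply Real.circleAverage_congr_sphere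
  intro z hz
  have hz1 : ‖z‖ = 1 := by simpa using hz
  have hρ : (ρ : ℂ) ≠ 0 := by exact_mod_cast h0.ne'
  have hb : (ρ : ℂ) * z ∈ ball (0 : ℂ) 1 := by
    rw [mem_ball_zero_iff, norm_mul, hz1, mul_one, Complex.norm_real, Real.norm_eq_abs,
      abs_of_pos h0]
    exact h1
  simp only [add_zero]
  rw [mul_div_cancel_left₀ _ hρ]
  congr 1
  unfold Pool.Agent.H82.NP.sq
  rw [hG _ hb, Complex.norm_exp, ← Real.exp_nat_mul, Real.log_exp]
  push_cast
  ring

/-- dominated convergence -/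
lemma tendsto_avg (G : ℂ[X]) (hG : ∀ z : ℂ, ‖z‖ < 1 → G.eval z ≠ 0) (n : ℕ) (τ : ℕ → ℂ) :
    Tendsto (fun ρ : ℝ => Real.circleAverage
      (fun z => TP n τ z * Real.log (Pool.Agent.H82.NP.sq G ((ρ : ℂ) * z))) 0 1) (𝓝[<] 1)
      (𝓝 (Real.circleAverage (fun z => TP n τ z * Real.log (Pool.Agent.H82.NP.sq G z)) 0 1)) := by
  have hTPc := TP_continuous n τ
  obtain ⟨M, hM⟩ : ∃ M : ℝ, ∀ z ∈ sphere (0 : ℂ) 1, |TP n τ z| ≤ M := by
    obtain ⟨M, hM⟩ := (isCompact_sphere (0 : ℂ) 1).bddAbove_image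
      (f := fun z => |TP n τ z|) hTPc.abs.continuousOn
    exact ⟨M, fun z hz => hM ⟨z, hz, rfl⟩⟩
  have hM0 : 0 ≤ M := (abs_nonneg _).trans (hM 1 (by simp))
  set S := ∑ j ∈ Finset.range (G.natDegree + 1), ‖G.coeff j‖ with hS
  set N := Multiset.card G.roots with hN
  have hG0 : G ≠ 0 := by
    intro h
    apply hG 0 (by simp)
    rw [h]; simp
  unfold Real.circleAverage
  apply Tendsto.const_smul
  apply intervalIntegral.tendsto_integral_filter_of_dominated_convergence
    (fun θ => M * (2 * (|Real.log S| + N * Real.log 2 +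
      |Real.log ‖G.eval (circleMap 0 1 θ)‖|)))
  · filter_upwards with ρ
    apply Measurable.aestronglyMeasurable
    apply Measurable.mul
    · exact (hTPc.comp (continuous_circleMap 0 1)).measurable
    · apply Real.measurable_log.comp
      have : Continuous (fun θ : ℝ => Pool.Agent.H82.NP.sq G ((ρ : ℂ) * circleMap 0 1 θ)) := by
        unfold Pool.Agent.H82.NP.sq
        exact ((G.continuous.comp (continuous_const.mul (continuous_circleMap 0 1))).norm).pow 2
      exact this.measurable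
  · have hev : ∀ᶠ ρ : ℝ in 𝓝[<] 1, 0 < ρ := by
      apply Filter.Eventually.filter_mono nhdsWithin_le_nhds
      exact lt_mem_nhds one_pos
    filter_upwards [hev, self_mem_nhdsWithin] with ρ h0 h1
    have h1' : ρ < 1 := h1
    have hae : ∀ᵐ θ : ℝ, G.eval (circleMap 0 1 θ) ≠ 0 := by
      have hc : ((circleMap 0 1) ⁻¹' (G.rootSet ℂ)).Countable :=
        ((G.rootSet_finite ℂ).countable).preimage_circleMap 0 one_ne_zero
      have := hc.ae_notMem (volume : Measure ℝ)
      filter_upwards [this] with θ hθ h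
      apply hθ
      rw [mem_preimage, mem_rootSet]
      exact ⟨hG0, by simpa using h⟩
    filter_upwards [hae] with θ hθ _
    have hz : circleMap 0 1 θ ∈ sphere (0 : ℂ) 1 := circleMap_mem_sphere 0 zero_le_one θ
    have hz1 : ‖circleMap 0 1 θ‖ = 1 := by simpa using hz
    have hb : ‖(ρ : ℂ) * circleMap 0 1 θ‖ < 1 := by
      rw [norm_mul, hz1, mul_one, Complex.norm_real, Real.norm_eq_abs, abs_of_pos h0]
      exact h1
    rw [Real.norm_eq_abs, abs_mul]
    apply mul_le_mul (hM _ hz) _ (abs_nonneg _) hM0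
    have e1 : Real.log (Pool.Agent.H82.NP.sq G ((ρ : ℂ) * circleMap 0 1 θ)) =
        2 * Real.log ‖G.eval ((ρ : ℂ) * circleMap 0 1 θ)‖ := by
      unfold Pool.Agent.H82.NP.sq
      rw [Real.log_pow]; push_cast; ring
    rw [e1, abs_mul, abs_two]
    apply mul_le_mul_of_nonneg_left _ (by norm_num)
    have hp1 : 0 < ‖G.eval ((ρ : ℂ) * circleMap 0 1 θ)‖ := norm_pos_iff.mpr (hG _ hb)
    have hp2 : 0 < ‖G.eval (circleMap 0 1 θ)‖ := norm_pos_iff.mpr hθ
    have u1 : Real.log ‖G.eval ((ρ : ℂ) * circleMap 0 1 θ)‖ ≤ Real.log S :=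
      Real.log_le_log hp1 (norm_eval_bound G hb.le)
    have u2 : Real.log ‖G.eval (circleMap 0 1 θ)‖ ≤
        N * Real.log 2 + Real.log ‖G.eval ((ρ : ℂ) * circleMap 0 1 θ)‖ := by
      rw [← Real.log_pow, ← Real.log_mul (by positivity) hp1.ne']
      exact Real.log_le_log hp2 (norm_eval_le h0 h1 hz1 G hG)
    have u3 := le_abs_self (Real.log S)
    have u4 := neg_abs_le (Real.log ‖G.eval (circleMap 0 1 θ)‖)
    have u5 := abs_nonneg (Real.log S)
    have u6 := abs_nonneg (Real.log ‖G.eval (circleMap 0 1 θ)‖)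
    have u7 : 0 ≤ (N : ℝ) * Real.log 2 := by
      have := Real.log_nonneg (show (1 : ℝ) ≤ 2 by norm_num)
      positivity
    rw [abs_le]
    constructor <;> linarith
  · have h2 : CircleIntegrable (fun z => Real.log ‖G.eval z‖) 0 1 := by
      apply MeromorphicOn.circleIntegrable_log_norm
      intro z _
      have : AnalyticAt ℂ (fun z => G.eval z) z := by
        have := (Polynomial.differentiable G).analyticAt z
        exact this
      exact this.meromorphicAt
    have h3 : IntervalIntegrable (fun θ => |Real.log ‖G.eval (circleMap 0 1 θ)‖|) volume 0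
        (2 * Real.pi) := by
      exact IntervalIntegrable.abs h2
    exact ((intervalIntegrable_const.add h3).const_mul 2).const_mul M
  · have hae : ∀ᵐ θ : ℝ, G.eval (circleMap 0 1 θ) ≠ 0 := by
      have hc : ((circleMap 0 1) ⁻¹' (G.rootSet ℂ)).Countable :=
        ((G.rootSet_finite ℂ).countable).preimage_circleMap 0 one_ne_zero
      have := hc.ae_notMem (volume : Measure ℝ)
      filter_upwards [this] with θ hθ h
      apply hθ
      rw [mem_preimage, mem_rootSet]
      exact ⟨hG0, by simpa using h⟩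
    filter_upwards [hae] with θ hθ _
    apply Tendsto.const_mul
    have hc : Continuous (fun ρ : ℝ => Pool.Agent.H82.NP.sq G ((ρ : ℂ) * circleMap 0 1 θ)) := by
      unfold Pool.Agent.H82.NP.sq
      exact ((G.continuous.comp (Complex.continuous_ofReal.mul continuous_const)).norm).pow 2
    have h2 : Tendsto (fun ρ : ℝ => Pool.Agent.H82.NP.sq G ((ρ : ℂ) * circleMap 0 1 θ)) (𝓝[<] 1)
        (𝓝 (Pool.Agent.H82.NP.sq G (circleMap 0 1 θ))) := by
      have := hc.tendsto 1
      simp only [Complex.ofReal_one, one_mul] at this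
      exact this.mono_left nhdsWithin_le_nhds
    have h3 : Pool.Agent.H82.NP.sq G (circleMap 0 1 θ) ≠ 0 := by
      unfold Pool.Agent.H82.NP.sq
      exact pow_ne_zero _ (norm_ne_zero_iff.mpr hθ)
    exact h2.log h3

/-- Taylor coefficients of a polynomial -/
lemma co_poly (G : ℂ[X]) (m : ℕ) : co (fun z => G.eval z) m = G.coeff m := by
  have e1 : ∀ k, iteratedDeriv k (fun z => G.eval z) = fun z => (derivative^[k] G).eval z := by
    intro k
    induction k with
    | zero => simp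
    | succ k ih =>
      rw [iteratedDeriv_succ, ih]
      funext z
      rw [Polynomial.deriv, Function.iterate_succ_apply']
  unfold co
  rw [e1]
  simp only
  rw [← coeff_zero_eq_eval_zero, coeff_iterate_derivative, zero_add, Nat.descFactorial_self,
    nsmul_eq_mul, mul_div_cancel_left₀]
  exact_mod_cast Nat.factorial_ne_zero m

theorem t_LOG (hEA1 : T_EA1) : T_LOG := by
  intro G hG
  have hd : DifferentiableOn ℂ (fun z => G.eval z) (ball 0 1) := G.differentiable.differentiableOn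
  obtain ⟨h, hh, hGh⟩ := exists_log hd (fun z hz => hG z (by simpa using hz))
  refine ⟨fun k => 2 * co h k, ?_, ?_⟩
  · intro m
    have e1 : (fun k => 2 * co h k / 2) = fun k => co h k := by
      funext k
      ring
    rw [e1, ← hEA1 (fun z => G.eval z) h hh hGh m]
    exact (co_poly G m).symm
  · intro n τ hτ
    have h1 := tendsto_avg G hG n τ
    have h2 : Tendsto (fun ρ : ℝ => ∑ k ∈ Finset.range (n + 1), ρ ^ k * (2 * co h k * τ k).re)
        (𝓝[<] 1) (𝓝 (∑ k ∈ Finset.range (n + 1), (1 : ℝ) ^ k * (2 * co h k * τ k).re)) := by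
      have hc : Continuous (fun ρ : ℝ =>
          ∑ k ∈ Finset.range (n + 1), ρ ^ k * (2 * co h k * τ k).re) := by fun_prop
      exact (hc.tendsto 1).mono_left nhdsWithin_le_nhds
    have h3 : (fun ρ : ℝ => Real.circleAverage
        (fun z => TP n τ z * Real.log (Pool.Agent.H82.NP.sq G ((ρ : ℂ) * z))) 0 1) =ᶠ[𝓝[<] 1]
        fun ρ => ∑ k ∈ Finset.range (n + 1), ρ ^ k * (2 * co h k * τ k).re := by
      have hev : ∀ᶠ ρ : ℝ in 𝓝[<] 1, 0 < ρ := by
        apply Filter.Eventually.filter_mono nhdsWithin_le_nhds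
        exact lt_mem_nhds one_pos
      filter_upwards [hev, self_mem_nhdsWithin] with ρ h0 h1
      exact avg_rho' hh hGh h0 h1 n τ hτ
    have h4 := tendsto_nhds_unique (h1.congr' h3) h2
    unfold av
    rw [h4]
    unfold L
    rw [Complex.re_sum]
    apply Finset.sum_congr rfl
    intro k _
    rw [one_pow, one_mul]

end Pool.Agent.H36.NP
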