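import Mathlib
import Pool.Agent.H82.NP.Targets

/-!
# NP project: QUAD (second order bound)
-/

set_option autoImplicit false

open Metric Set Filter Topology Polynomial

namespace Pool.Agent.H36.NP

open Pool.Agent.H82.NP

lemma exp_le_quad (t : ℝ) : Real.exp t ≤ 1 + t + t ^ 2 * Real.exp |t| := by
  have h1 : 1 - t ≤ Real.exp (-t) := by
    have := Real.add_one_le_exp (-t)
    linarith
  have h2 : Real.exp t * Real.exp (-t) = 1 := by rw [← Real.exp_add]; simp
  have h3 := Real.exp_pos t
  rcases le_total 0 t with ht | ht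
  · rw [abs_of_nonneg ht]
    rcases le_total t 1 with ht1 | ht1
    · have h4 : Real.exp t * (1 - t) ≤ 1 := by
        have := mul_le_mul_of_nonneg_left h1 h3.le
        rwa [h2] at this
      nlinarith
    · have h4 : 1 ≤ t ^ 2 := by nlinarith
      have h5 : Real.exp t ≤ t ^ 2 * Real.exp t := le_mul_of_one_le_left h3.le h4
      linarith
  · rw [abs_of_nonpos ht]
    have h4 : Real.exp t * (1 - t) ≤ 1 := by
      have := mul_le_mul_of_nonneg_left h1 h3.le
      rwa [h2] at this
    have h5 : Real.exp t ≤ 1 + t + t ^ 2 := by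
      have h6 : 0 < 1 - t := by linarith
      have h7 : (Real.exp t) * (1 - t) ≤ (1 + t + t ^ 2) * (1 - t) := by
        have : (1 + t + t ^ 2) * (1 - t) = 1 - t ^ 3 := by ring
        rw [this]
        have : t ^ 3 ≤ 0 := by
          have : t ^ 3 = t * t ^ 2 := by ring
          rw [this]
          exact mul_nonpos_of_nonpos_of_nonneg ht (sq_nonneg t)
        linarith
      exact le_of_mul_le_mul_right h7 h6
    have h6 : 1 ≤ Real.exp (-t) := Real.one_le_exp (by linarith)
    nlinarith [sq_nonneg t]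

/-- the bound for `x log² x` -/
lemma xlog_bound {N x δ : ℝ} (hN : 1 ≤ N) (h0 : 0 < x) (hx : x ≤ N) (hδ : 0 ≤ δ)
    (hδ2 : δ ≤ 1 / 2) :
    x * Real.log x ^ 2 * Real.exp |(-δ) * Real.log x| ≤ 16 + N * Real.log N ^ 2 * N := by
  rw [abs_mul, abs_neg, abs_of_nonneg hδ]
  rcases le_total x 1 with h1 | h1
  · have hl : Real.log x ≤ 0 := Real.log_nonpos h0.le h1
    rw [abs_of_nonpos hl]
    have h2 := Real.abs_log_mul_self_rpow_lt x (1 / 4) h0 h1 (by norm_num)
    have h3 : x * Real.exp (δ * -Real.log x) ≤ (x ^ (1 / 4 : ℝ)) ^ 2 := by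
      have e1 : x * Real.exp (δ * -Real.log x) = Real.exp ((1 - δ) * Real.log x) := by
        nth_rewrite 1 [← Real.exp_log h0]
        rw [← Real.exp_add]
        congr 1
        ring
      have e2 : (x ^ (1 / 4 : ℝ)) ^ 2 = Real.exp (1 / 2 * Real.log x) := by
        rw [Real.rpow_def_of_pos h0, ← Real.exp_nat_mul]
        congr 1
        push_cast
        ring
      rw [e1, e2]
      apply Real.exp_le_exp.mpr
      nlinarith
    have h4 : (Real.log x * x ^ (1 / 4 : ℝ)) ^ 2 ≤ 16 := by
      rw [← sq_abs]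
      have h5 := abs_nonneg (Real.log x * x ^ (1 / 4 : ℝ))
      have h6 : |Real.log x * x ^ (1 / 4 : ℝ)| < 4 := by
        have : (1 : ℝ) / (1 / 4) = 4 := by norm_num
        rw [this] at h2
        exact h2
      nlinarith
    have h5 : x * Real.log x ^ 2 * Real.exp (δ * -Real.log x) ≤ 16 := by
      calc x * Real.log x ^ 2 * Real.exp (δ * -Real.log x)
          = Real.log x ^ 2 * (x * Real.exp (δ * -Real.log x)) := by ring
        _ ≤ Real.log x ^ 2 * (x ^ (1 / 4 : ℝ)) ^ 2 :=
            mul_le_mul_of_nonneg_left h3 (sq_nonneg _)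
        _ = (Real.log x * x ^ (1 / 4 : ℝ)) ^ 2 := by ring
        _ ≤ 16 := h4
    have h6 : 0 ≤ N * Real.log N ^ 2 * N := by positivity
    linarith
  · have hl : 0 ≤ Real.log x := Real.log_nonneg h1
    rw [abs_of_nonneg hl]
    have h2 : Real.log x ≤ Real.log N := Real.log_le_log h0 hx
    have h3 : Real.exp (δ * Real.log x) ≤ N := by
      calc Real.exp (δ * Real.log x) ≤ Real.exp (Real.log x) := by
            apply Real.exp_le_exp.mpr
            nlinarith
        _ = x := Real.exp_log h0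
        _ ≤ N := hx
    have h4 : Real.log x ^ 2 ≤ Real.log N ^ 2 := by
      apply pow_le_pow_left₀ hl h2
    have h5 : x * Real.log x ^ 2 * Real.exp (δ * Real.log x) ≤ N * Real.log N ^ 2 * N := by
      apply mul_le_mul (mul_le_mul hx h4 (sq_nonneg _) (by linarith)) h3 (Real.exp_pos _).le
      positivity
    linarith

/-- the pointwise inequality -/
lemma pt_bound {N x δ : ℝ} (hN : 1 ≤ N) (h0 : 0 ≤ x) (hx : x ≤ N) (hδ : 0 ≤ δ)
    (hδ2 : δ ≤ 1 / 2) :
    x ^ (1 - δ) ≤ x - δ * (x * Real.log x) + (16 + N * Real.log N ^ 2 * N) * δ ^ 2 := by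
  have hK : 0 ≤ 16 + N * Real.log N ^ 2 * N := by positivity
  rcases h0.eq_or_lt with h | h
  · rw [← h, Real.zero_rpow (by linarith)]
    simp only [zero_mul, mul_zero, sub_zero, zero_add]
    positivity
  · have e1 : x ^ (1 - δ) = x * Real.exp ((-δ) * Real.log x) := by
      rw [Real.rpow_def_of_pos h]
      nth_rewrite 2 [← Real.exp_log h]
      rw [← Real.exp_add]
      congr 1
      ring
    have h1 := exp_le_quad ((-δ) * Real.log x)
    have h2 := xlog_bound hN h hx hδ hδ2
    rw [e1]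
    calc x * Real.exp ((-δ) * Real.log x)
        ≤ x * (1 + (-δ) * Real.log x
            + ((-δ) * Real.log x) ^ 2 * Real.exp |(-δ) * Real.log x|) :=
          mul_le_mul_of_nonneg_left h1 h.le
      _ = x - δ * (x * Real.log x)
            + (x * Real.log x ^ 2 * Real.exp |(-δ) * Real.log x|) * δ ^ 2 := by ring
      _ ≤ x - δ * (x * Real.log x) + (16 + N * Real.log N ^ 2 * N) * δ ^ 2 := by
          have := mul_le_mul_of_nonneg_right h2 (sq_nonneg δ)
          linarith

lemma continuous_sq (G : ℂ[X]) : Continuous (sq G) := by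
  unfold Pool.Agent.H82.NP.sq
  exact (G.continuous.norm).pow 2

lemma sq_nonneg' (G : ℂ[X]) (z : ℂ) : 0 ≤ sq G z := by unfold Pool.Agent.H82.NP.sq; positivity

/-- Cauchy-Schwarz -/
lemma sq_le (n : ℕ) (G : ℂ[X]) (hG : G.natDegree ≤ n) (h1 : nrm n G = 1) (z : ℂ)
    (hz : ‖z‖ = 1) : sq G z ≤ n + 1 := by
  have e1 : G.eval z = ∑ j ∈ Finset.range (n + 1), G.coeff j * z ^ j :=
    eval_eq_sum_range' (by omega) z
  have h2 : ‖G.eval z‖ ≤ ∑ j ∈ Finset.range (n + 1), ‖G.coeff j‖ := by
    rw [e1]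
    refine (norm_sum_le _ _).trans (Finset.sum_le_sum fun j _ => ?_)
    rw [norm_mul, norm_pow, hz, one_pow, mul_one]
  have h3 := sq_sum_le_card_mul_sum_sq (s := Finset.range (n + 1)) (f := fun j => ‖G.coeff j‖)
  rw [Finset.card_range] at h3
  unfold Pool.Agent.H82.NP.sq
  calc ‖G.eval z‖ ^ 2 ≤ (∑ j ∈ Finset.range (n + 1), ‖G.coeff j‖) ^ 2 :=
        pow_le_pow_left₀ (norm_nonneg _) h2 2
    _ ≤ ((n + 1 : ℕ) : ℝ) * ∑ j ∈ Finset.range (n + 1), ‖G.coeff j‖ ^ 2 := h3
    _ = n + 1 := by
        have : ∑ j ∈ Finset.range (n + 1), ‖G.coeff j‖ ^ 2 = 1 := h1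
        rw [this]; push_cast; ring

theorem t_QUAD (hP : T_PARS) : T_QUAD := by
  intro n
  refine ⟨16 + ((n : ℝ) + 1) * Real.log ((n : ℝ) + 1) ^ 2 * ((n : ℝ) + 1), by positivity, ?_⟩
  intro G δ hG hnrm hδ hδ2
  set K := 16 + ((n : ℝ) + 1) * Real.log ((n : ℝ) + 1) ^ 2 * ((n : ℝ) + 1) with hK
  have hN : (1 : ℝ) ≤ (n : ℝ) + 1 := by
    have : (0 : ℝ) ≤ n := Nat.cast_nonneg n
    linarith
  have hc := continuous_sq G
  have i1 : CircleIntegrable (fun z => sq G z ^ (1 - δ)) 0 1 := by
    apply ContinuousOn.circleIntegrable (by norm_num)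
    exact (hc.rpow_const (fun x => Or.inr (by linarith))).continuousOn
  have i2 : CircleIntegrable (sq G) 0 1 :=
    ContinuousOn.circleIntegrable (by norm_num) hc.continuousOn
  have i3 : CircleIntegrable (fun z => sq G z * Real.log (sq G z)) 0 1 := by
    apply ContinuousOn.circleIntegrable (by norm_num)
    exact (Real.continuous_mul_log.comp hc).continuousOn
  have i4 : CircleIntegrable (fun z => δ * (sq G z * Real.log (sq G z))) 0 1 := by
    apply ContinuousOn.circleIntegrable (by norm_num)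
    exact ((Real.continuous_mul_log.comp hc).const_mul δ |>.continuousOn)
  have i5 : CircleIntegrable (fun _ : ℂ => K * δ ^ 2) 0 1 :=
    ContinuousOn.circleIntegrable (by norm_num) continuousOn_const
  have i6 : CircleIntegrable (fun z => sq G z - δ * (sq G z * Real.log (sq G z))) 0 1 := i2.sub i4
  have i7 : CircleIntegrable (fun z => sq G z - δ * (sq G z * Real.log (sq G z)) + K * δ ^ 2) 0 1 :=
    i6.add i5
  have h1 : av (fun z => sq G z ^ (1 - δ)) ≤
      av (fun z => sq G z - δ * (sq G z * Real.log (sq G z)) + K * δ ^ 2) := by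
    apply Real.circleAverage_mono i1 i7
    intro z hz
    have hz1 : ‖z‖ = 1 := by simpa using hz
    exact pt_bound hN (sq_nonneg' G z) (sq_le n G hG hnrm z hz1) hδ hδ2
  refine h1.trans (le_of_eq ?_)
  unfold av
  rw [Real.circleAverage_fun_add i6 i5, Real.circleAverage_fun_sub i2 i4,
    Real.circleAverage_const]
  have h2 : Real.circleAverage (fun z => δ * (sq G z * Real.log (sq G z))) 0 1 =
      δ * ent (sq G) := by
    have := Real.circleAverage_fun_smul (a := δ) (f := fun z => sq G z * Real.log (sq G z))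
      (c := 0) (R := 1)
    simpa [smul_eq_mul, ent, av] using this
  have h3 : Real.circleAverage (fun z => sq G z) 0 1 = 1 := by
    have := hP n G hG
    rw [hnrm] at this
    exact this
  rw [h2, h3]

end Pool.Agent.H36.NP
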